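import Mathlib
import Pool.Agent.H67.PSL

namespace Pool.Agent.Results.MP_d08dce_al.NoUniform

open Matrix Pool.Agent.H67 Projectivization
open scoped LinearAlgebra.Projectivization

instance : Fact (Nat.Prime 3) := ⟨by norm_num⟩

abbrev F := ZMod 3
abbrev I (h : ℕ) := Fin h ⊕ Fin h
abbrev SL (h : ℕ) := Matrix.SpecialLinearGroup (I h) F
abbrev S (h : ℕ) := ProjectiveSpecialLinearGroup (I h) F

def up (h : ℕ) : Multiplicative (Matrix (Fin h) (Fin h) F) →* SL h where
  toFun A := ⟨fromBlocks 1 A.toAdd 0 1, by rw [det_fromBlocks_zero₂₁]; simp⟩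
  map_one' := Subtype.ext (by simp)
  map_mul' A B := Subtype.ext (by
    show _ = fromBlocks 1 A.toAdd 0 1 * fromBlocks 1 B.toAdd 0 1
    rw [fromBlocks_multiply]; simp [add_comm])

theorem up_inj (h : ℕ) : Function.Injective (PSL.π.comp (up h)) := by
  rw [injective_iff_map_eq_one]
  intro A hA
  obtain ⟨r, -, hr⟩ := Matrix.SpecialLinearGroup.mem_center_iff.1 ((PSL.π_eq_one _).1 hA)
  apply Multiplicative.toAdd.injective
  ext i j
  simpa [up] using (congrFun (congrFun hr (Sum.inl i)) (Sum.inr j)).symm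

theorem dvd_card (h : ℕ) : 3 ^ (h * h) ∣ Nat.card (S h) := by
  have := Subgroup.card_dvd_of_injective _ (up_inj h)
  simpa [Matrix, ← pow_mul] using this

theorem card_le (h : ℕ) : Nat.card (S h) ≤ 3 ^ (4 * (h * h)) := by
  refine (Nat.card_le_card_of_surjective _ PSL.π_surj).trans
    ((Nat.card_le_card_of_injective (fun A : SL h => A.1) Subtype.val_injective).trans (le_of_eq ?_))
  simp [Matrix, ← pow_mul]
  ring

theorem not_alt (h : ℕ) (hh : 7 ≤ h) (n : ℕ) : Nat.card (S h) ≠ Nat.card (alternatingGroup (Fin n)) := by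
  intro e
  have h1 := dvd_card h
  have h2 := card_le h
  have h3 : Nat.card (S h) ∣ n.factorial := by
    rw [e]
    simpa [Nat.card_perm, Fintype.card_perm] using Subgroup.card_subgroup_dvd_card (alternatingGroup (Fin n))
  have h4 := ((by norm_num : Nat.Prime 3).pow_dvd_iff_le_factorization n.factorial_ne_zero).1 (h1.trans h3)
  have h5 := Nat.factorization_factorial_le_div_pred (by norm_num : Nat.Prime 3) n
  have h6 : 49 ≤ h * h := Nat.mul_le_mul hh hh
  have h7 : 2 * (h * h) ≤ n := by omega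
  obtain ⟨m, rfl⟩ : ∃ m, n = 26 + m := ⟨n - 26, by omega⟩
  haveI : Nontrivial (Fin (26 + m)) := Fin.nontrivial_iff_two_le.2 (by omega)
  have h8 : 2 * Nat.card (S h) = (26 + m).factorial := by
    rw [e]
    simpa [Nat.card_perm, Fintype.card_perm] using two_mul_nat_card_alternatingGroup (α := Fin (26 + m))
  have h9 : (26 : ℕ).factorial * (26 + 1) ^ m ≤ (26 + m).factorial := Nat.factorial_mul_pow_le_factorial
  have h10 : 3 ^ (4 * (h * h)) ≤ 27 ^ m := by
    rw [show 27 = 3 ^ 3 from rfl, ← pow_mul]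
    exact Nat.pow_le_pow_right (by norm_num) (by omega)
  have h11 : 3 ≤ (26 : ℕ).factorial := by decide
  have h12 : 0 < 27 ^ m := by positivity
  have h13 := Nat.mul_le_mul_right (27 ^ m) h11
  change _ * 27 ^ m ≤ _ at h9
  omega

def d (h : ℕ) (i0 : I h) : Matrix (I h) (I h) F := diagonal fun i => if i = i0 then -1 else 1

theorem det_d (h : ℕ) (i0 : I h) : (d h i0).det = -1 := by
  rw [d, det_diagonal, Finset.prod_ite_eq']; simp

theorem result (k : ℕ) : ∃ (G : Type) (_ : Group G), Finite G ∧ IsSimpleGroup G ∧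
    (∀ n, IsEmpty (G ≃* alternatingGroup (Fin n))) ∧
    ∃ (Ω : Type) (_ : MulAction G Ω), Finite Ω ∧ FaithfulSMul G Ω ∧ ∃ x : Equiv.Perm Ω,
      (∀ t : Fin k → Ω, ∃ g : G, ∀ i, x (t i) = g • t i) ∧ ¬ ∃ g : G, ∀ ω, x ω = g • ω := by
  let i0 : I (k + 7) := Sum.inl 0
  let D : GL (I (k + 7)) F := GeneralLinearGroup.mkOfDetNeZero (d _ i0) (by rw [det_d]; decide)
  refine ⟨S (k + 7), inferInstance, inferInstance, PSL.simple (by simp; omega),
    fun n => ⟨fun e => not_alt _ (by omega) n (Nat.card_congr e.toEquiv)⟩,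
    ℙ F (I (k + 7) → F), inferInstance, inferInstance, inferInstance, MulAction.toPerm D, fun t => ?_, ?_⟩
  · let M : Matrix (Fin k) (I (k + 7)) F := of fun i => (t i).rep
    obtain ⟨a, ha, h0⟩ := (Submodule.ne_bot_iff _).1
      (LinearMap.ker_ne_bot_of_finrank_lt (f := M.mulVecLin) (by simp; omega))
    obtain ⟨j, hj⟩ := Function.ne_iff.1 h0
    let r : Matrix (I (k + 7)) (I (k + 7)) F := 1 + vecMulVec (Pi.single j (a j)⁻¹) a
    have hr : r.det = -1 := by
      simp only [r]
      rw [vecMulVec_eq Unit, det_one_add_replicateCol_mul_replicateRow, dotProduct_single,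
        mul_inv_cancel₀ hj]
      decide
    let g : SL (k + 7) := ⟨d _ i0 * r, by rw [det_mul, det_d, hr]; simp⟩
    refine ⟨PSL.π g, fun i => ?_⟩
    have h1 : r *ᵥ (t i).rep = (t i).rep := by
      have : a ⬝ᵥ (t i).rep = 0 := by rw [dotProduct_comm]; exact congrFun ha i
      simp only [r]
      rw [add_mulVec, one_mulVec, vecMulVec_mulVec, this]; simp
    show D • t i = g • t i
    rw [← mk_rep (t i), smul_mk, smul_mk]
    congr 1
    show d _ i0 *ᵥ (t i).rep = (d _ i0 * r) *ᵥ (t i).rep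
    rw [← mulVec_mulVec, h1]
  · rintro ⟨g, hg⟩
    obtain ⟨g, rfl⟩ := PSL.π_surj g
    have hdd : d _ i0 * d _ i0 = 1 := by
      rw [d, diagonal_mul_diagonal, ← diagonal_one]
      congr 1; funext i; split_ifs <;> simp
    obtain ⟨c, hc⟩ := (toLin' (d _ i0 * g.1)).exists_eq_smul_id_of_forall_notLinearIndependent fun v => by
      by_cases hv : v = 0
      · simp [hv, linearIndependent_fin2]
      · have h1 : D • mk F v hv = g • mk F v hv := hg (mk F v hv)
        rw [smul_mk, smul_mk, eq_comm, mk_eq_mk_iff'] at h1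
        obtain ⟨c, hc⟩ := h1
        rw [LinearIndependent.pair_iff' hv]
        refine fun h => h c ?_
        have h2 : c • d _ i0 *ᵥ v = g.1 *ᵥ v := hc
        rw [toLin'_apply, ← mulVec_mulVec, ← h2, mulVec_smul, mulVec_mulVec, hdd, one_mulVec]
    have h1 := congrArg LinearMap.det hc
    rw [LinearMap.det_toLin', det_mul, det_d, g.2, LinearMap.det_smul, map_one] at h1
    simp only [Module.finrank_fintype_fun_eq_card, Fintype.card_sum, Fintype.card_fin, pow_add c (k + 7)] at h1
    revert h1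
    generalize c ^ (k + 7) = y
    revert y
    decide

end Pool.Agent.Results.MP_d08dce_al.NoUniform
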